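import Pool.Agent.E8helper50.SR.S

/-!
# Project SR (MP_1a662b_al), piece BC: scalar extension (helper9)
-/

set_option autoImplicit false

universe u v w

namespace Pool.Agent.E8helper9.SR

open Pool.Agent.E8helper50.SR TensorProduct

set_option linter.unusedSectionVars false

section wp

variable {R : Type v} [NonUnitalRing R]

theorem wprod_succ (n : ℕ) (x : Fin (n + 2) → R) :
    wprod (n + 1) x = wprod n (fun i => x i.castSucc) * x (Fin.last (n + 1)) := rfl

theorem upd_castSucc {n : ℕ} (x : Fin (n + 2) → R) (i : Fin (n + 1)) (a : R) :
    (fun k : Fin (n + 1) => Function.update x i.castSucc a k.castSucc) =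
      Function.update (fun k : Fin (n + 1) => x k.castSucc) i a := by
  funext k
  rcases eq_or_ne k i with h | h
  · subst h; simp
  · rw [Function.update_of_ne h, Function.update_of_ne]
    intro hh
    exact h (Fin.castSucc_injective _ hh)

theorem upd_last {n : ℕ} (x : Fin (n + 2) → R) (a : R) :
    (fun k : Fin (n + 1) => Function.update x (Fin.last (n + 1)) a k.castSucc) =
      (fun k : Fin (n + 1) => x k.castSucc) := by
  funext k
  rw [Function.update_of_ne]
  exact (Fin.castSucc_lt_last k).ne

theorem wprod_add (n : ℕ) (x : Fin (n + 1) → R) (i : Fin (n + 1)) (a b : R) :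
    wprod n (Function.update x i (a + b)) =
      wprod n (Function.update x i a) + wprod n (Function.update x i b) := by
  induction n with
  | zero =>
    have : i = 0 := by ext; omega
    subst this
    simp [wprod]
  | succ n ih =>
    refine Fin.lastCases ?_ (fun i => ?_) i
    · rw [wprod_succ, wprod_succ, wprod_succ, upd_last, upd_last, upd_last]
      simp [mul_add]
    · rw [wprod_succ, wprod_succ, wprod_succ, upd_castSucc, upd_castSucc, upd_castSucc, ih]
      have h : Fin.last (n + 1) ≠ i.castSucc := (Fin.castSucc_lt_last i).ne'
      rw [Function.update_of_ne h, Function.update_of_ne h, Function.update_of_ne h, add_mul]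

theorem wprod_smul {K : Type w} [Field K] [Module K R] [IsScalarTower K R R]
    [SMulCommClass K R R] (n : ℕ) (x : Fin (n + 1) → R) (i : Fin (n + 1)) (c : K) (a : R) :
    wprod n (Function.update x i (c • a)) = c • wprod n (Function.update x i a) := by
  induction n with
  | zero =>
    have : i = 0 := by ext; omega
    subst this
    simp [wprod]
  | succ n ih =>
    refine Fin.lastCases ?_ (fun i => ?_) i
    · rw [wprod_succ, wprod_succ, upd_last, upd_last]
      simp [mul_smul_comm]
    · rw [wprod_succ, wprod_succ, upd_castSucc, upd_castSucc, ih]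
      have h : Fin.last (n + 1) ≠ i.castSucc := (Fin.castSucc_lt_last i).ne'
      rw [Function.update_of_ne h, Function.update_of_ne h, smul_mul_assoc]

end wp

theorem upd_perm {R : Type v} {n : ℕ} (x : Fin n → R) (j : Fin n) (a : R)
    (σ : Equiv.Perm (Fin n)) :
    (fun i => Function.update x j a (σ i)) =
      Function.update (fun i => x (σ i)) (σ.symm j) a := by
  funext i
  rcases eq_or_ne i (σ.symm j) with h | h
  · subst h; simp
  · rw [Function.update_of_ne h, Function.update_of_ne]
    intro hh
    exact h (by rw [← hh]; simp)

section sevs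

variable {K : Type u} [Field K] {R : Type v} [NonUnitalRing R] [Module K R]
  [IsScalarTower K R R] [SMulCommClass K R R]

theorem sev_add (f : MPoly K) (p : Fin (f.n + 1) → ZMod 2) (x : Fin (f.n + 1) → R)
    (j : Fin (f.n + 1)) (a b : R) :
    sev f p (Function.update x j (a + b)) =
      sev f p (Function.update x j a) + sev f p (Function.update x j b) := by
  unfold sev
  rw [← Finset.sum_add_distrib]
  refine Finset.sum_congr rfl (fun σ _ => ?_)
  rw [upd_perm, upd_perm, upd_perm, wprod_add, smul_add]

theorem sev_smul (f : MPoly K) (p : Fin (f.n + 1) → ZMod 2) (x : Fin (f.n + 1) → R)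
    (j : Fin (f.n + 1)) (c : K) (a : R) :
    sev f p (Function.update x j (c • a)) = c • sev f p (Function.update x j a) := by
  unfold sev
  rw [Finset.smul_sum]
  refine Finset.sum_congr rfl (fun σ _ => ?_)
  rw [upd_perm, upd_perm, wprod_smul, smul_comm]

theorem sev_zero_of_span (f : MPoly K) (p : Fin (f.n + 1) → ZMod 2)
    (B : Fin (f.n + 1) → Set R)
    (h : ∀ x : Fin (f.n + 1) → R, (∀ i, x i ∈ B i) → sev f p x = 0) :
    ∀ (s : Finset (Fin (f.n + 1))) (x : Fin (f.n + 1) → R),
      (∀ i ∈ s, x i ∈ Submodule.span K (B i)) → (∀ i, i ∉ s → x i ∈ B i) → sev f p x = 0 := by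
  classical
  intro s
  induction s using Finset.induction_on with
  | empty =>
    intro x _ h2
    exact h x (fun i => h2 i (by simp))
  | insert j s hj ih =>
    intro x h1 h2
    have key : ∀ y ∈ Submodule.span K (B j), sev f p (Function.update x j y) = 0 := by
      intro y hy
      induction hy using Submodule.span_induction with
      | mem y hy =>
        apply ih
        · intro i hi
          have hne : i ≠ j := fun e => hj (e ▸ hi)
          rw [Function.update_of_ne hne]
          exact h1 i (Finset.mem_insert_of_mem hi)
        · intro i hi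
          rcases eq_or_ne i j with e | e
          · subst e; simpa using hy
          · rw [Function.update_of_ne e]
            exact h2 i (by simp [e, hi])
      | zero =>
        have := sev_smul f p x j (0 : K) (0 : R)
        simpa using this
      | add y z _ _ hy hz => rw [sev_add, hy, hz, add_zero]
      | smul c y _ hy => rw [sev_smul, hy, smul_zero]
    have := key (x j) (h1 j (Finset.mem_insert_self _ _))
    rwa [Function.update_eq_self] at this

end sevs

section ext

variable {F K : Type u} [Field F] [Field K] [Algebra F K]

theorem mk_inj {A : Type u} [AddCommGroup A] [Module F A] :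
    Function.Injective (fun a : A => (1 : K) ⊗ₜ[F] a) := by
  exact Module.FaithfullyFlat.tensorProduct_mk_injective A

theorem wprod_tmul {A : Type u} [NonUnitalRing A] [Module F A] [IsScalarTower F A A]
    [SMulCommClass F A A] (n : ℕ) (x : Fin (n + 1) → A) :
    wprod n (fun i => (1 : K) ⊗ₜ[F] x i) = (1 : K) ⊗ₜ[F] wprod n x := by
  induction n with
  | zero => rfl
  | succ n ih =>
    rw [wprod_succ, wprod_succ, ih, Algebra.TensorProduct.tmul_mul_tmul, one_mul]

theorem sev_tmul {A : Type u} [NonUnitalRing A] [Module F A] [IsScalarTower F A A]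
    [SMulCommClass F A A] (f : MPoly F) (p : Fin (f.n + 1) → ZMod 2) (x : Fin (f.n + 1) → A) :
    sev (f.map : MPoly K) p (fun i => (1 : K) ⊗ₜ[F] x i) = (1 : K) ⊗ₜ[F] sev f p x := by
  unfold sev
  rw [TensorProduct.tmul_sum]
  refine Finset.sum_congr rfl (fun σ _ => ?_)
  have h1 := wprod_tmul (F := F) (K := K) f.n (fun i => x (σ i))
  show ((algebraMap F K (f.c σ)) * ((ksgn p σ : ℤ) : K)) •
    wprod f.n (fun i => (1 : K) ⊗ₜ[F] x (σ i)) = _
  rw [h1, TensorProduct.tmul_smul, ← algebraMap_smul K (f.c σ * ((ksgn p σ : ℤ) : F))]
  simp
  rfl

/-- scalar extension of a superalgebra -/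
noncomputable def ext (K : Type u) [Field K] [Algebra F K] (A : SAlg F) : SAlg K where
  carrier := K ⊗[F] A.carrier
  gr := fun i => (A.gr i).baseChange K
  compl := by
    have hc := A.compl
    constructor
    · rw [Submodule.disjoint_def]
      intro x h0 h1
      have e0 : ∀ y ∈ (A.gr 0).baseChange K,
          (((A.gr 0).projection (A.gr 1) hc).baseChange K) y = y := by
        intro y hy
        rw [Submodule.baseChange_eq_span] at hy
        induction hy using Submodule.span_induction with
        | mem y hy =>
          obtain ⟨a, ha, rfl⟩ := hy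
          simp [Submodule.projection_apply_of_mem_left hc ha]
        | zero => simp
        | add y z _ _ hy hz => rw [map_add, hy, hz]
        | smul c y _ hy => rw [map_smul, hy]
      have e1 : ∀ y ∈ (A.gr 1).baseChange K,
          (((A.gr 0).projection (A.gr 1) hc).baseChange K) y = 0 := by
        intro y hy
        rw [Submodule.baseChange_eq_span] at hy
        induction hy using Submodule.span_induction with
        | mem y hy =>
          obtain ⟨a, ha, rfl⟩ := hy
          simp [Submodule.projection_apply_of_mem_right hc ha]
        | zero => simp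
        | add y z _ _ hy hz => rw [map_add, hy, hz, add_zero]
        | smul c y _ hy => rw [map_smul, hy, smul_zero]
      rw [← e0 x h0, e1 x h1]
    · rw [codisjoint_iff_le_sup]
      intro x _
      induction x using TensorProduct.induction_on with
      | zero => exact Submodule.zero_mem _
      | tmul k a =>
        have ha : a ∈ A.gr 0 ⊔ A.gr 1 := by rw [hc.sup_eq_top]; trivial
        obtain ⟨b, hb, c, hcc, rfl⟩ := Submodule.mem_sup.1 ha
        rw [TensorProduct.tmul_add]
        exact Submodule.add_mem_sup (Submodule.tmul_mem_baseChange_of_mem k hb)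
          (Submodule.tmul_mem_baseChange_of_mem k hcc)
      | add x y hx hy => exact Submodule.add_mem _ (hx trivial) (hy trivial)
  mul_mem := by
    intro i j a b ha hb
    rw [Submodule.baseChange_eq_span] at ha hb
    induction ha using Submodule.span_induction with
    | mem y hy =>
      obtain ⟨a, ha, rfl⟩ := hy
      induction hb using Submodule.span_induction with
      | mem z hz =>
        obtain ⟨b, hb, rfl⟩ := hz
        have := A.mul_mem i j a b ha hb
        have h := Submodule.tmul_mem_baseChange_of_mem (1 * 1 : K) this
        simpa [Algebra.TensorProduct.tmul_mul_tmul] using h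
      | zero => rw [mul_zero]; exact Submodule.zero_mem _
      | add y z _ _ hy hz => rw [mul_add]; exact Submodule.add_mem _ hy hz
      | smul c y _ hy => rw [mul_smul_comm]; exact Submodule.smul_mem _ _ hy
    | zero => rw [zero_mul]; exact Submodule.zero_mem _
    | add y z _ _ hy hz => rw [add_mul]; exact Submodule.add_mem _ hy hz
    | smul c y _ hy => rw [smul_mul_assoc]; exact Submodule.smul_mem _ _ hy

theorem sat_ext (A : SAlg F) (f : MPoly F) : Sat A f ↔ Sat (ext K A) f.map := by
  constructor
  · intro h p a ha
    refine sev_zero_of_span (f.map : MPoly K) p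
      (fun i => ((fun b : A => (1 : K) ⊗ₜ[F] b) '' (A.gr (p i)) : Set (K ⊗[F] A.carrier)))
      ?_ Finset.univ a ?_ ?_
    · intro x hx
      choose y hy hxy using hx
      have : x = fun i => (1 : K) ⊗ₜ[F] y i := by
        funext i; exact (hxy i).symm
      rw [this]
      have h2 := sev_tmul (K := K) f p y
      refine h2.trans ?_
      rw [h p y hy, TensorProduct.tmul_zero]
    · intro i _
      have := ha i
      change a i ∈ (A.gr (p i)).baseChange K at this
      rw [Submodule.baseChange_eq_span] at this
      exact this
    · intro i hi
      exact absurd (Finset.mem_univ _) hi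
  · intro h p a ha
    have h1 := h p (fun i => (1 : K) ⊗ₜ[F] a i)
      (fun i => Submodule.tmul_mem_baseChange_of_mem (1 : K) (ha i))
    have h2 := sev_tmul (K := K) f p a
    have h3 : (1 : K) ⊗ₜ[F] sev f p a = (1 : K) ⊗ₜ[F] (0 : A.carrier) := by
      rw [← h2, TensorProduct.tmul_zero]; exact h1
    exact mk_inj h3

end ext

theorem t_BC : S_BC.{u} := by
  intro F K _ _ _ A _
  refine ⟨ext K A, ?_, fun f => sat_ext A f⟩
  change Module.Finite K (K ⊗[F] A.carrier)
  infer_instance

end Pool.Agent.E8helper9.SR
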